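import Mathlib

/-!
# P0c8ca5Fo.Tr: the transfer homomorphism with values in a commutative quotient

`M` a group acting freely on `X`, `lam : M →* A` with `A` commutative, `κ : X → A` with
`κ (m • x) = lam m * κ x`. For an equivariant permutation `T` of `X`,
`trL M κ T` is the product of `κ (T x) / κ x` over the orbits.
-/

namespace Pool.Agent.Lib.P0c8ca5.Fo

open MulAction

section
variable {M X A : Type*} [Group M] [MulAction M X] [CommGroup A] {lam : M →* A}

/-- the factor of `x` -/
def trF (κ : X → A) (T : X → X) (x : X) : A := κ (T x) * (κ x)⁻¹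

variable (M) in
/-- the product over the orbits of `κ (T x) / κ x` -/
noncomputable def trL (κ : X → A) (T : X → X) : A :=
  ∏ᶠ q : orbitRel.Quotient M X, trF κ T q.out

theorem exists_out (x : X) :
    ∃ m : M, m • (Quotient.out (Quotient.mk (orbitRel M X) x)) = x := by
  have h : (orbitRel M X) x (Quotient.out (Quotient.mk (orbitRel M X) x)) :=
    (orbitRel M X).symm' (Quotient.mk_out (s := orbitRel M X) x)
  obtain ⟨m, hm⟩ := h
  exact ⟨m, hm⟩

theorem mk_smul (m : M) (x : X) :
    (Quotient.mk (orbitRel M X) (m • x)) = Quotient.mk (orbitRel M X) x :=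
  Quotient.sound (s := orbitRel M X) ⟨m, rfl⟩

theorem exists_kap (lam : M →* A) (hfree : ∀ (m : M) (x : X), m • x = x → m = 1) :
    ∃ κ : X → A, ∀ (m : M) (x : X), κ (m • x) = lam m * κ x := by
  choose κ hκ using (exists_out (M := M) (X := X))
  refine ⟨fun x => lam (κ x), fun m x => ?_⟩
  have h1 := hκ (m • x)
  rw [mk_smul] at h1
  have h2 : (m * κ x) • (Quotient.out (Quotient.mk (orbitRel M X) x)) = m • x := by
    rw [mul_smul, hκ x]
  have h3 : ((m * κ x)⁻¹ * κ (m • x)) • (Quotient.out (Quotient.mk (orbitRel M X) x)) =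
      Quotient.out (Quotient.mk (orbitRel M X) x) := by
    rw [mul_smul, h1, ← h2, inv_smul_smul]
  have h4 := hfree _ _ h3
  have h5 := (inv_mul_eq_one.mp h4).symm
  change lam (κ (m • x)) = lam m * lam (κ x)
  rw [h5, map_mul]

theorem trF_smul {κ : X → A} (hκ : ∀ (m : M) (x : X), κ (m • x) = lam m * κ x) {T : X → X}
    (hT : ∀ (m : M) (x : X), T (m • x) = m • T x) (m : M) (x : X) :
    trF κ T (m • x) = trF κ T x := by
  unfold trF
  rw [hT, hκ, hκ, mul_inv, mul_mul_mul_comm, mul_inv_cancel, one_mul]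

theorem trF_eq {κ : X → A} (hκ : ∀ (m : M) (x : X), κ (m • x) = lam m * κ x) {T : X → X}
    (hT : ∀ (m : M) (x : X), T (m • x) = m • T x) (x : X) :
    trF κ T (Quotient.out (Quotient.mk (orbitRel M X) x)) = trF κ T x := by
  obtain ⟨m, hm⟩ := exists_out (M := M) x
  conv_rhs => rw [← hm]
  exact (trF_smul hκ hT m _).symm

theorem trL_comp [Finite X] {κ : X → A} (hκ : ∀ (m : M) (x : X), κ (m • x) = lam m * κ x)
    {T U : X → X} (hT : ∀ (m : M) (x : X), T (m • x) = m • T x)
    (hU : ∀ (m : M) (x : X), U (m • x) = m • U x) (hb : Function.Bijective U) :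
    trL M κ (fun x => T (U x)) = trL M κ T * trL M κ U := by
  have : Finite (orbitRel.Quotient M X) := Quotient.finite _
  unfold trL
  have h1 : ∀ q : orbitRel.Quotient M X,
      trF κ (fun x => T (U x)) q.out =
        trF κ T (Quotient.out (Quotient.mk (orbitRel M X) (U q.out))) * trF κ U q.out := by
    intro q
    rw [trF_eq hκ hT]
    unfold trF
    rw [mul_assoc, ← mul_assoc (κ (U q.out))⁻¹, inv_mul_cancel, one_mul]
  rw [finprod_congr h1, finprod_mul_distrib (Set.toFinite _) (Set.toFinite _)]
  congr 1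
  have hsurj : Function.Surjective
      (fun q : orbitRel.Quotient M X => (Quotient.mk (orbitRel M X) (U q.out) :
        orbitRel.Quotient M X)) := by
    intro q'
    obtain ⟨x, hx⟩ := hb.2 q'.out
    refine ⟨Quotient.mk (orbitRel M X) x, ?_⟩
    obtain ⟨m, hm⟩ := exists_out (M := M) x
    have h2 : U x = m • U (Quotient.out (Quotient.mk (orbitRel M X) x)) := by
      rw [← hU, hm]
    have h3 : (Quotient.mk (orbitRel M X) (U (Quotient.out (Quotient.mk (orbitRel M X) x)))) =
        Quotient.mk (orbitRel M X) (U x) := by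
      rw [h2, mk_smul]
    show Quotient.mk (orbitRel M X) (U (Quotient.out (Quotient.mk (orbitRel M X) x))) = q'
    rw [h3, hx]
    exact Quotient.out_eq q'
  have hbij := hsurj.bijective_of_finite
  exact finprod_eq_of_bijective _ hbij (fun _ => rfl)

theorem iter_smul {T : X → X} (hT : ∀ (m : M) (x : X), T (m • x) = m • T x) (n : ℕ) (m : M)
    (x : X) : T^[n] (m • x) = m • T^[n] x := by
  induction n generalizing x with
  | zero => rfl
  | succ k ihk => rw [Function.iterate_succ_apply, hT, ihk, ← Function.iterate_succ_apply]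

theorem trL_iter [Finite X] {κ : X → A} (hκ : ∀ (m : M) (x : X), κ (m • x) = lam m * κ x)
    {T : X → X} (hT : ∀ (m : M) (x : X), T (m • x) = m • T x) (hb : Function.Bijective T) (n : ℕ) :
    trL M κ (T^[n]) = trL M κ T ^ n := by
  induction n with
  | zero =>
    unfold trL
    rw [pow_zero]
    have h : ∀ q : orbitRel.Quotient M X, trF κ (T^[0]) q.out = 1 := by
      intro q
      unfold trF
      simp
    rw [finprod_congr h, finprod_one]
  | succ n ih =>
    have h := trL_comp hκ (iter_smul hT n) hT hb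
    have h' : (T^[n+1]) = (fun x => T^[n] (T x)) := by
      funext x
      exact Function.iterate_succ_apply T n x
    rw [h', h, ih, pow_succ]

theorem trL_smul [Finite X] {κ : X → A} (hκ : ∀ (m : M) (x : X), κ (m • x) = lam m * κ x) (m : M) :
    trL M κ (fun x => m • x) = lam m ^ Nat.card (orbitRel.Quotient M X) := by
  have : Finite (orbitRel.Quotient M X) := Quotient.finite _
  have := Fintype.ofFinite (orbitRel.Quotient M X)
  unfold trL
  have h : ∀ q : orbitRel.Quotient M X, trF κ (fun x => m • x) q.out = lam m := by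
    intro q
    unfold trF
    rw [hκ, mul_inv_cancel_right]
  rw [finprod_congr h, finprod_eq_prod_of_fintype, Finset.prod_const, Finset.card_univ,
    Nat.card_eq_fintype_card]

theorem card_free [Finite M] [Finite X] (hfree : ∀ (m : M) (x : X), m • x = x → m = 1) :
    Nat.card X = Nat.card M * Nat.card (orbitRel.Quotient M X) := by
  have hbij : Function.Bijective
      (fun p : M × orbitRel.Quotient M X => p.1 • (Quotient.out p.2)) := by
    constructor
    · rintro ⟨m, q⟩ ⟨m', q'⟩ h
      have h' : m • Quotient.out q = m' • Quotient.out q' := h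
      have hq : q = q' := by
        have h1 : (Quotient.mk (orbitRel M X) (m • Quotient.out q)) =
            Quotient.mk (orbitRel M X) (m' • Quotient.out q') := by rw [h']
        rw [mk_smul, mk_smul] at h1
        rw [← Quotient.out_eq q, ← Quotient.out_eq q']
        exact h1
      subst hq
      have h2 : (m'⁻¹ * m) • Quotient.out q = Quotient.out q := by
        rw [mul_smul, h', inv_smul_smul]
      have h3 := hfree _ _ h2
      rw [(inv_mul_eq_one.mp h3).symm]
    · intro x
      obtain ⟨m, hm⟩ := exists_out (M := M) x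
      exact ⟨(m, Quotient.mk (orbitRel M X) x), hm⟩
  rw [← Nat.card_prod]
  exact (Nat.card_congr (Equiv.ofBijective _ hbij)).symm

/-! ### blocks -/

theorem prod_blocks {Ω : Type*} [Finite Ω] (F : Ω → A) (B : Ω → Set Ω)
    (h1 : ∀ q, q ∈ B q) (h2 : ∀ q, ∀ q' ∈ B q, B q' = B q)
    (h3 : ∀ q, ∏ᶠ q' ∈ B q, F q' = 1) : ∏ᶠ q, F q = 1 := by
  classical
  have := Fintype.ofFinite Ω
  rw [finprod_eq_prod_of_fintype]
  rw [← Finset.prod_fiberwise_of_maps_to (s := Finset.univ) (t := Finset.univ.image B) (g := B)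
    (fun x _ => Finset.mem_image_of_mem B (Finset.mem_univ x))]
  refine Finset.prod_eq_one fun C hC => ?_
  obtain ⟨q, -, rfl⟩ := Finset.mem_image.1 hC
  have h4 : (Finset.univ.filter fun x => B x = B q) = (B q).toFinset := by
    ext x
    simp only [Finset.mem_filter, Finset.mem_univ, true_and, Set.mem_toFinset]
    constructor
    · intro h
      rw [← h]
      exact h1 x
    · intro h
      exact h2 q x h
  rw [h4, ← finprod_mem_eq_toFinset_prod]
  exact h3 q

theorem block_one {V Q : Type*} [Finite X] [CommGroup V]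
    [Finite V] [CommGroup Q] [Finite Q] {κ : X → A}
    (hκ : ∀ (m : M) (x : X), κ (m • x) = lam m * κ x)
    {T : X → X} (hT : ∀ (m : M) (x : X), T (m • x) = m • T x) (φ : V → X) (g : V) (f : Q →* V)
    (hf : Function.Injective f) (ι : Q →* M) (h1 : ∀ (q : Q) (v : V), φ (f q * v) = ι q • φ v)
    (h2 : ∀ v : V, T (φ v) = φ (g * v))
    (h3 : ∀ (v v' : V) (m : M), φ v = m • φ v' → ∃ q : Q, v = f q * v')
    (h4 : g ^ (Nat.card V / Nat.card Q) = 1) :
    ∏ᶠ q ∈ Set.range (fun v : V => (Quotient.mk (orbitRel M X) (φ v))), trF κ T q.out = 1 := by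
  classical
  let Ω := V ⧸ f.range
  have : Finite Ω := Quotient.finite _
  have hΩ := Fintype.ofFinite Ω
  let ψ : Ω → orbitRel.Quotient M X := fun c => Quotient.mk (orbitRel M X) (φ c.out)
  have hout : ∀ v : V, ∃ q : Q, v = f q * (QuotientGroup.mk v : Ω).out := by
    intro v
    have h5 : (QuotientGroup.mk ((QuotientGroup.mk v : Ω).out) : Ω) = QuotientGroup.mk v :=
      Quotient.out_eq _
    obtain ⟨q, hq⟩ := QuotientGroup.eq.1 h5
    refine ⟨q, ?_⟩
    rw [hq, mul_comm, mul_inv_cancel_left]
  have hψr : ∀ v : V, ψ (QuotientGroup.mk v) = Quotient.mk (orbitRel M X) (φ v) := by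
    intro v
    obtain ⟨q, hq⟩ := hout v
    change Quotient.mk (orbitRel M X) (φ ((QuotientGroup.mk v : Ω).out)) = _
    conv_rhs => rw [hq, h1, mk_smul]
  have hψi : Function.Injective ψ := by
    intro c c' h
    have h5 : Quotient.mk (orbitRel M X) (φ c.out) = Quotient.mk (orbitRel M X) (φ c'.out) := h
    obtain ⟨m, hm⟩ := Quotient.exact h5
    obtain ⟨q, hq⟩ := h3 c.out c'.out m hm.symm
    have h6 : (QuotientGroup.mk c.out : Ω) = QuotientGroup.mk c'.out := by
      rw [hq]
      refine QuotientGroup.eq.2 ?_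
      refine ⟨q⁻¹, ?_⟩
      rw [map_inv, mul_inv_rev, mul_comm (c'.out)⁻¹, inv_mul_cancel_right]
    rw [← Quotient.out_eq c, ← Quotient.out_eq c']
    exact h6
  have hrange : Set.range (fun v : V => (Quotient.mk (orbitRel M X) (φ v))) = Set.range ψ := by
    ext q
    constructor
    · rintro ⟨v, rfl⟩
      exact ⟨QuotientGroup.mk v, hψr v⟩
    · rintro ⟨c, rfl⟩
      exact ⟨c.out, rfl⟩
  rw [hrange, finprod_mem_range hψi, finprod_eq_prod_of_fintype]
  -- the factor of a coset
  choose mc hmc using fun c : Ω => hout (g * c.out)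
  let σ : Ω → Ω := fun c => QuotientGroup.mk g * c
  have hσ : ∀ c : Ω, (QuotientGroup.mk (g * c.out) : Ω) = σ c := by
    intro c
    change (QuotientGroup.mk (g * c.out) : Ω) = QuotientGroup.mk g * c
    conv_rhs => rw [← Quotient.out_eq c]
    rfl
  have hσb : Function.Bijective σ := (Group.mulLeft_bijective _)
  have hfac : ∀ c : Ω, trF κ T (ψ c).out =
      lam (ι (mc c)) * (κ (φ (σ c).out) * (κ (φ c.out))⁻¹) := by
    intro c
    have h5 : trF κ T (ψ c).out = trF κ T (φ c.out) := trF_eq hκ hT _
    rw [h5]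
    unfold trF
    rw [h2]
    conv_lhs => rw [hmc c, h1, hκ, hσ c]
    rw [mul_assoc]
  rw [Finset.prod_congr rfl (fun c _ => hfac c), Finset.prod_mul_distrib,
    Finset.prod_mul_distrib]
  have h5 : ∏ c : Ω, κ (φ (σ c).out) = ∏ c : Ω, κ (φ c.out) :=
    Fintype.prod_bijective σ hσb _ _ (fun _ => rfl)
  rw [h5, Finset.prod_inv_distrib, mul_inv_cancel, mul_one]
  have h6 : ∏ c : Ω, mc c = 1 := by
    apply hf
    rw [map_prod, map_one]
    have h7 : ∀ c : Ω, f (mc c) = g * (c.out * ((σ c).out)⁻¹) := by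
      intro c
      have h8 := hmc c
      rw [hσ c] at h8
      rw [← mul_assoc, h8, mul_inv_cancel_right]
    rw [Finset.prod_congr rfl (fun c _ => h7 c), Finset.prod_mul_distrib,
      Finset.prod_mul_distrib, Finset.prod_inv_distrib]
    have h8 : ∏ c : Ω, (σ c).out = ∏ c : Ω, c.out :=
      Fintype.prod_bijective σ hσb _ _ (fun _ => rfl)
    rw [h8, mul_inv_cancel, mul_one, Finset.prod_const, Finset.card_univ]
    have h9 : Fintype.card Ω = Nat.card V / Nat.card Q := by
      rw [← Nat.card_eq_fintype_card]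
      have h10 : Nat.card V = Nat.card Ω * Nat.card f.range :=
        Subgroup.card_eq_card_quotient_mul_card_subgroup f.range
      have h11 : Nat.card f.range = Nat.card Q :=
        (Nat.card_congr (Equiv.ofInjective f hf)).symm
      rw [h10, h11, Nat.mul_div_cancel _ Nat.card_pos]
    rw [h9, h4]
  have h7 : ∏ c : Ω, lam (ι (mc c)) = (lam.comp ι) (∏ c : Ω, mc c) :=
    (map_prod (lam.comp ι) mc Finset.univ).symm
  rw [h7, h6, map_one]

end

end Pool.Agent.Lib.P0c8ca5.Fo
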