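import Mathlib
import Pool.Agent.Lib.P0c8ca5Fo.Fib
import Pool.Agent.Lib.P0c8ca5Fo.Tr

/-!
# P0c8ca5Fo.LT: the transfer of `s1 ^ k` is trivial
-/

namespace Pool.Agent.Lib.P0c8ca5.Fo

open MulAction Ab

section
variable {G : Type*} [Group G] [Finite G] {p k : ℕ} [Fact p.Prime] {S : Subgroup G} {w : G}

/-- the action of `S` on the pairs -/
@[reducible] def actF (hy : HyF p k S w) : MulAction ↥S (XW p w) where
  smul s x := cjX (s : G) (hy.cw s s.2) x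
  one_smul x := by
    apply Subtype.ext
    change (((1 : ↥S) : G) * x.1.1 * ((1 : ↥S) : G)⁻¹, ((1 : ↥S) : G) * x.1.2 * ((1 : ↥S) : G)⁻¹) = x.1
    simp
  mul_smul s t x := by
    apply Subtype.ext
    change (((s * t : ↥S) : G) * x.1.1 * ((s * t : ↥S) : G)⁻¹,
      ((s * t : ↥S) : G) * x.1.2 * ((s * t : ↥S) : G)⁻¹) =
      ((s : G) * ((t : G) * x.1.1 * (t : G)⁻¹) * (s : G)⁻¹,
        (s : G) * ((t : G) * x.1.2 * (t : G)⁻¹) * (s : G)⁻¹)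
    simp [mul_assoc]

/-- the pair `(a, v b)` -/
def vX (hy : HyF p k S w) (x : XW p w) (v : ↥(Vg S k x.1.1 x.1.2)) : XW p w :=
  ⟨(x.1.1, v.1 * x.1.2), Pw_vb hy x.2 v.2⟩

theorem s1k (hy : HyF p k S w) (x : XW p w) (v : ↥(Vg S k x.1.1 x.1.2)) :
    s1^[k] (vX hy x v) = vX hy x (⟨cq k x.1.1 x.1.2, cq_mem_Vg hy x.2⟩ * v) := by
  apply Subtype.ext
  rw [s1_iter]
  change (x.1.1, v.1 * x.1.2 * x.1.1 ^ k) = (x.1.1, cq k x.1.1 x.1.2 * v.1 * x.1.2)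
  have h1 := cq_mem_Vg hy x.2
  have h2 := (Vg_comm hy x.2 v.2 h1).eq
  have h3 : x.1.2 * x.1.1 ^ k = cq k x.1.1 x.1.2 * x.1.2 := by
    unfold cq
    rw [conj_pow, inv_mul_cancel_right]
  rw [mul_assoc, h3, ← mul_assoc, h2]

theorem trL_T (hy : HyF p k S w) {A : Type*} [CommGroup A] (lam : ↥S →* A)
    {κ : XW p w → A} (hκ : ∀ (s : ↥S) (x : XW p w),
      κ (cjX (s : G) (hy.cw s s.2) x) = lam s * κ x) :
    @trL (↥S) (XW p w) A _ (actF hy) _ κ (s1^[k] : XW p w → XW p w) = 1 := by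
  letI : MulAction ↥S (XW p w) := actF hy
  have hsm : ∀ (s : ↥S) (x : XW p w), s • x = cjX (s : G) (hy.cw s s.2) x := fun _ _ => rfl
  have hsv : ∀ (s : ↥S) (x : XW p w),
      (s • x).1 = ((s : G) * x.1.1 * (s : G)⁻¹, (s : G) * x.1.2 * (s : G)⁻¹) := fun _ _ => rfl
  have hκ' : ∀ (s : ↥S) (x : XW p w), κ (s • x) = lam s * κ x := hκ
  have hs1 : ∀ (s : ↥S) (x : XW p w), s1 (s • x) = s • s1 x := fun s x => s1_cj _ _ x
  have hT : ∀ (s : ↥S) (x : XW p w), s1^[k] (s • x) = s • s1^[k] x := iter_smul hs1 k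
  -- the blocks
  have hblk : ∀ (x : XW p w) (v : ↥(Vg S k x.1.1 x.1.2)) (s : ↥S),
      ∀ v' : ↥(Vg S k (s • vX hy x v).1.1 (s • vX hy x v).1.2),
      ∃ v'' : ↥(Vg S k x.1.1 x.1.2), vX hy (s • vX hy x v) v' = s • vX hy x v'' := by
    intro x v s v'
    have hv1 : v'.1 ∈ Vg S k ((s : G) * x.1.1 * (s : G)⁻¹)
        ((s : G) * (v.1 * x.1.2) * (s : G)⁻¹) := v'.2
    have h1 := Vg_cj' hy (Pw_vb hy x.2 v.2) s.2 hv1
    rw [Vg_vb hy x.2 v.2] at h1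
    refine ⟨⟨(s : G)⁻¹ * v'.1 * s * v.1, Subgroup.mul_mem _ h1 v.2⟩, ?_⟩
    apply Subtype.ext
    change ((s : G) * x.1.1 * (s : G)⁻¹, v'.1 * ((s : G) * (v.1 * x.1.2) * (s : G)⁻¹)) =
      ((s : G) * x.1.1 * (s : G)⁻¹,
        (s : G) * ((s : G)⁻¹ * v'.1 * s * v.1 * x.1.2) * (s : G)⁻¹)
    rw [Prod.mk.injEq]
    exact ⟨rfl, by group⟩
  have hblk' : ∀ (x : XW p w) (v : ↥(Vg S k x.1.1 x.1.2)) (s : ↥S)
      (v'' : ↥(Vg S k x.1.1 x.1.2)),
      ∃ v' : ↥(Vg S k (s • vX hy x v).1.1 (s • vX hy x v).1.2),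
        vX hy (s • vX hy x v) v' = s • vX hy x v'' := by
    intro x v s v''
    have h1 : v''.1 * v.1⁻¹ ∈ Vg S k x.1.1 (v.1 * x.1.2) := by
      rw [Vg_vb hy x.2 v.2]
      exact Subgroup.mul_mem _ v''.2 (Subgroup.inv_mem _ v.2)
    have h2 := Vg_cj hy (Pw_vb hy x.2 v.2) s.2 h1
    refine ⟨⟨(s : G) * (v''.1 * v.1⁻¹) * (s : G)⁻¹, h2⟩, ?_⟩
    apply Subtype.ext
    change ((s : G) * x.1.1 * (s : G)⁻¹, (s : G) * (v''.1 * v.1⁻¹) * (s : G)⁻¹ *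
        ((s : G) * (v.1 * x.1.2) * (s : G)⁻¹)) =
      ((s : G) * x.1.1 * (s : G)⁻¹, (s : G) * (v''.1 * x.1.2) * (s : G)⁻¹)
    rw [Prod.mk.injEq]
    exact ⟨rfl, by group⟩
  have : Finite (orbitRel.Quotient ↥S (XW p w)) := Quotient.finite _
  let B : orbitRel.Quotient ↥S (XW p w) → Set (orbitRel.Quotient ↥S (XW p w)) := fun q =>
    Set.range (fun v : ↥(Vg S k q.out.1.1 q.out.1.2) =>
      (Quotient.mk (orbitRel ↥S (XW p w)) (vX hy q.out v)))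
  refine prod_blocks (fun q => trF κ (s1^[k]) q.out) B ?_ ?_ ?_
  · intro q
    refine ⟨1, ?_⟩
    have h1 : vX hy q.out 1 = q.out := by
      apply Subtype.ext
      change (q.out.1.1, 1 * q.out.1.2) = q.out.1
      rw [one_mul]
    change Quotient.mk (orbitRel ↥S (XW p w)) (vX hy q.out 1) = q
    rw [h1]
    exact Quotient.out_eq q
  · rintro q q' ⟨v, hv⟩
    have hv' : Quotient.mk (orbitRel ↥S (XW p w)) (vX hy q.out v) = q' := hv
    -- a representative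
    obtain ⟨s, hs⟩ : ∃ s : ↥S, s • vX hy q.out v = q'.out := by
      have h1 : Quotient.mk (orbitRel ↥S (XW p w)) q'.out =
          Quotient.mk (orbitRel ↥S (XW p w)) (vX hy q.out v) := by
        rw [hv']
        exact Quotient.out_eq q'
      obtain ⟨s, hs⟩ := Quotient.exact h1
      exact ⟨s, hs⟩
    have hB' : B q' = Set.range (fun v' : ↥(Vg S k q'.out.1.1 q'.out.1.2) =>
      (Quotient.mk (orbitRel ↥S (XW p w)) (vX hy q'.out v'))) := rfl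
    rw [hB', ← hs]
    ext t
    constructor
    · rintro ⟨v', rfl⟩
      obtain ⟨v'', h1⟩ := hblk q.out v s v'
      refine ⟨v'', ?_⟩
      change Quotient.mk (orbitRel ↥S (XW p w)) (vX hy q.out v'') =
        Quotient.mk (orbitRel ↥S (XW p w)) (vX hy (s • vX hy q.out v) v')
      rw [h1, mk_smul]
    · rintro ⟨v'', rfl⟩
      obtain ⟨v', h1⟩ := hblk' q.out v s v''
      refine ⟨v', ?_⟩
      change Quotient.mk (orbitRel ↥S (XW p w)) (vX hy (s • vX hy q.out v) v') =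
        Quotient.mk (orbitRel ↥S (XW p w)) (vX hy q.out v'')
      rw [h1, mk_smul]
  · intro q
    set x := q.out with hx
    letI : CommGroup ↥(Vg S k x.1.1 x.1.2) :=
      { (inferInstance : Group ↥(Vg S k x.1.1 x.1.2)) with
        mul_comm := fun u v => Subtype.ext (Vg_comm hy x.2 u.2 v.2).eq }
    letI : CommGroup ↥(Qg S k x.1.1 x.1.2) :=
      { (inferInstance : Group ↥(Qg S k x.1.1 x.1.2)) with
        mul_comm := fun u v => Subtype.ext (Qg_comm hy x.2 u.2 v.2).eq }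
    let f : ↥(Qg S k x.1.1 x.1.2) →* ↥(Vg S k x.1.1 x.1.2) :=
      { toFun := fun y => ⟨y.1 * x.1.2 * y.1⁻¹ * x.1.2⁻¹, cmt_mem hy x.2 y.2⟩
        map_one' := by
          apply Subtype.ext
          change (1 : G) * x.1.2 * 1⁻¹ * x.1.2⁻¹ = 1
          group
        map_mul' := by
          intro y z
          apply Subtype.ext
          change y.1 * z.1 * x.1.2 * (y.1 * z.1)⁻¹ * x.1.2⁻¹ =
            y.1 * x.1.2 * y.1⁻¹ * x.1.2⁻¹ * (z.1 * x.1.2 * z.1⁻¹ * x.1.2⁻¹)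
          have h1 := cmt_mem hy x.2 z.2
          have h2 := (Vg_Qg hy x.2 h1 y.2).eq
          have h3 := cmt_mem hy x.2 y.2
          have h4 := (Vg_comm hy x.2 h3 h1).eq
          calc y.1 * z.1 * x.1.2 * (y.1 * z.1)⁻¹ * x.1.2⁻¹
              = y.1 * (z.1 * x.1.2 * z.1⁻¹ * x.1.2⁻¹) * x.1.2 * y.1⁻¹ * x.1.2⁻¹ := by group
            _ = (z.1 * x.1.2 * z.1⁻¹ * x.1.2⁻¹) * y.1 * x.1.2 * y.1⁻¹ * x.1.2⁻¹ := by rw [h2]
            _ = (z.1 * x.1.2 * z.1⁻¹ * x.1.2⁻¹) * (y.1 * x.1.2 * y.1⁻¹ * x.1.2⁻¹) := by group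
            _ = y.1 * x.1.2 * y.1⁻¹ * x.1.2⁻¹ * (z.1 * x.1.2 * z.1⁻¹ * x.1.2⁻¹) := by rw [h4] }
    have hfv : ∀ y : ↥(Qg S k x.1.1 x.1.2), (f y).1 = y.1 * x.1.2 * y.1⁻¹ * x.1.2⁻¹ :=
      fun _ => rfl
    let ι : ↥(Qg S k x.1.1 x.1.2) →* ↥S :=
      Subgroup.inclusion (fun y hy1 => (Qg_sub hy x.2 hy1).1)
    have hι : ∀ y : ↥(Qg S k x.1.1 x.1.2), ((ι y : ↥S) : G) = y.1 := fun _ => rfl
    have hcq := cq_mem_Vg hy x.2
    refine block_one (lam := lam) hκ' hT (vX hy x) ⟨cq k x.1.1 x.1.2, hcq⟩ f ?_ ι ?_ ?_ ?_ ?_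
    · rw [injective_iff_map_eq_one]
      intro y hy1
      have h1 : y.1 * x.1.2 * y.1⁻¹ * x.1.2⁻¹ = 1 := by
        rw [← hfv, hy1]
        rfl
      have h2 := Qg_sub hy x.2 y.2
      have h3 : y.1 * x.1.2 = x.1.2 * y.1 := by
        have h4 : y.1 * x.1.2 = (y.1 * x.1.2 * y.1⁻¹ * x.1.2⁻¹) * (x.1.2 * y.1) := by group
        rw [h4, h1, one_mul]
      exact Subtype.ext (fix_one hy x.2 h2.1 h2.2 h3)
    · intro y v
      apply Subtype.ext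
      rw [hsv, hι]
      change (x.1.1, (f y).1 * v.1 * x.1.2) =
        (y.1 * x.1.1 * y.1⁻¹, y.1 * (v.1 * x.1.2) * y.1⁻¹)
      have h2 := Qg_sub hy x.2 y.2
      have h3 := (Vg_Qg hy x.2 v.2 y.2).eq
      have h4 := (Vg_comm hy x.2 (f y).2 v.2).eq
      rw [Prod.mk.injEq]
      constructor
      · rw [h2.2, mul_inv_cancel_right]
      · calc (f y).1 * v.1 * x.1.2 = v.1 * (f y).1 * x.1.2 := by rw [h4]
          _ = v.1 * (y.1 * x.1.2 * y.1⁻¹ * x.1.2⁻¹) * x.1.2 := by rw [hfv]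
          _ = (v.1 * y.1) * x.1.2 * y.1⁻¹ := by group
          _ = (y.1 * v.1) * x.1.2 * y.1⁻¹ := by rw [h3]
          _ = y.1 * (v.1 * x.1.2) * y.1⁻¹ := by group
    · intro v
      exact s1k hy x v
    · intro v v' s h
      have h1 := congrArg Subtype.val h
      rw [hsv] at h1
      have h2 : x.1.1 = (s : G) * x.1.1 * (s : G)⁻¹ := congrArg Prod.fst h1
      have h3 : v.1 * x.1.2 = (s : G) * (v'.1 * x.1.2) * (s : G)⁻¹ := congrArg Prod.snd h1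
      have hsa : (s : G) * x.1.1 = x.1.1 * (s : G) := by
        conv_rhs => rw [h2]
        group
      -- `v` as an element of the group of the pair `(a, v' b)`
      have hP' := Pw_vb hy x.2 v'.2
      have h4 : (s : G) * (v'.1 * x.1.2) * (s : G)⁻¹ * (v'.1 * x.1.2)⁻¹ ∈
          Vg S k x.1.1 (v'.1 * x.1.2) := by
        rw [Vg_vb hy x.2 v'.2, ← h3]
        have h5 : v.1 * x.1.2 * (v'.1 * x.1.2)⁻¹ = v.1 * v'.1⁻¹ := by group
        rw [h5]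
        exact Subgroup.mul_mem _ v.2 (Subgroup.inv_mem _ v'.2)
      have h5 := mem_Qg_of hy hP' s.2 hsa h4
      rw [Qg_vb hy x.2 v'.2] at h5
      refine ⟨⟨s, h5⟩, ?_⟩
      apply Subtype.ext
      change v.1 = (f ⟨s, h5⟩).1 * v'.1
      rw [hfv]
      change v.1 = (s : G) * x.1.2 * (s : G)⁻¹ * x.1.2⁻¹ * v'.1
      have h6 := (Vg_Qg hy x.2 v'.2 h5).eq
      have h7 : (s : G) * x.1.2 * (s : G)⁻¹ * x.1.2⁻¹ ∈ Vg S k x.1.1 x.1.2 := cmt_mem hy x.2 h5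
      have h8 := (Vg_comm hy x.2 h7 v'.2).eq
      rw [h8]
      have h9 : v.1 = (s : G) * (v'.1 * x.1.2) * (s : G)⁻¹ * x.1.2⁻¹ := by
        rw [← h3, mul_inv_cancel_right]
      rw [h9]
      calc (s : G) * (v'.1 * x.1.2) * (s : G)⁻¹ * x.1.2⁻¹
          = ((s : G) * v'.1) * x.1.2 * (s : G)⁻¹ * x.1.2⁻¹ := by group
        _ = (v'.1 * (s : G)) * x.1.2 * (s : G)⁻¹ * x.1.2⁻¹ := by
            have h10 : ((s : G)) * v'.1 = v'.1 * (s : G) := h6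
            rw [h10]
        _ = v'.1 * ((s : G) * x.1.2 * (s : G)⁻¹ * x.1.2⁻¹) := by group
    · apply Subtype.ext
      change (cq k x.1.1 x.1.2) ^ (Nat.card (Vg S k x.1.1 x.1.2) /
        Nat.card (Qg S k x.1.1 x.1.2)) = 1
      exact cq_pow hy x.2

end

end Pool.Agent.Lib.P0c8ca5.Fo
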